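import Pool.Agent.H70.LZ.Stm

/-!
# Part CLO of the Lazard block: logarithms of a subgroup form a Lie subring
-/

set_option autoImplicit false

open Finset

namespace H84.LZ

open H70.LZ

section basics

variable {R S : Type} [CommRing R] [Ring S] [Algebra R S]

theorem cm_add_left (a a' b : S) : cm (a + a') b = cm a b + cm a' b := by
  simp only [cm]; noncomm_ring

theorem cm_add_right (a b b' : S) : cm a (b + b') = cm a b + cm a b' := by
  simp only [cm]; noncomm_ring

theorem cm_sub_left (a a' b : S) : cm (a - a') b = cm a b - cm a' b := by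
  simp only [cm]; noncomm_ring

theorem cm_sub_right (a b b' : S) : cm a (b - b') = cm a b - cm a b' := by
  simp only [cm]; noncomm_ring

theorem cm_smul_left (r : R) (a b : S) : cm (r • a) b = r • cm a b := by
  simp only [cm, smul_mul_assoc, mul_smul_comm, smul_sub]

theorem cm_smul_right (r : R) (a b : S) : cm a (r • b) = r • cm a b := by
  simp only [cm, smul_mul_assoc, mul_smul_comm, smul_sub]

theorem cm_neg_right (a b : S) : cm a (-b) = - cm a b := by
  simp only [cm]; noncomm_ring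

theorem cm_neg_left (a b : S) : cm (-a) b = - cm a b := by
  simp only [cm]; noncomm_ring

theorem cm_swap (a b : S) : cm a b = - cm b a := by
  simp only [cm]; noncomm_ring

theorem cm_self (a : S) : cm a a = 0 := by
  simp only [cm, sub_self]

theorem cm_zero_left (a : S) : cm 0 a = 0 := by simp [cm]

theorem cm_zero_right (a : S) : cm a 0 = 0 := by simp [cm]

theorem cm_jac (a b w : S) : cm (cm a b) w = cm a (cm b w) - cm b (cm a w) := by
  simp only [cm]; noncomm_ring

/-- span of commutators -/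
def brk (m n : Submodule R S) : Submodule R S :=
  Submodule.span R {w | ∃ a ∈ m, ∃ b ∈ n, w = cm a b}

theorem brk_mem {m n : Submodule R S} {a b : S} (ha : a ∈ m) (hb : b ∈ n) : cm a b ∈ brk m n :=
  Submodule.subset_span ⟨a, ha, b, hb, rfl⟩

theorem brk_le {m n p : Submodule R S} (h : ∀ a ∈ m, ∀ b ∈ n, cm a b ∈ p) : brk m n ≤ p := by
  refine Submodule.span_le.2 ?_
  rintro w ⟨a, ha, b, hb, rfl⟩
  exact h a ha b hb

/-- the lower central series of `m` -/
def lc (m : Submodule R S) : ℕ → Submodule R S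
  | 0 => m
  | n + 1 => brk m (lc m n)

theorem lc_anti {m : Submodule R S} (hm : ∀ a ∈ m, ∀ b ∈ m, cm a b ∈ m) (n : ℕ) :
    lc m (n + 1) ≤ lc m n := by
  induction n with
  | zero => exact brk_le hm
  | succ n ih => exact brk_le fun a ha b hb => brk_mem ha (ih hb)

theorem lc_le {m : Submodule R S} (hm : ∀ a ∈ m, ∀ b ∈ m, cm a b ∈ m) (n : ℕ) : lc m n ≤ m := by
  induction n with
  | zero => exact le_rfl
  | succ n ih => exact (lc_anti hm n).trans ih

theorem lc_cm {m : Submodule R S} {n : ℕ} {a b : S} (ha : a ∈ m) (hb : b ∈ lc m n) :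
    cm a b ∈ lc m (n + 1) := brk_mem ha hb

theorem lc_comm {m : Submodule R S} (i : ℕ) : ∀ j : ℕ, ∀ a ∈ lc m i, ∀ b ∈ lc m j,
    cm a b ∈ lc m (i + j + 1) := by
  induction i with
  | zero =>
    intro j a ha b hb
    rw [Nat.zero_add]
    exact lc_cm ha hb
  | succ i ih =>
    intro j a ha b hb
    have : a ∈ Submodule.span R {w | ∃ a ∈ m, ∃ b ∈ lc m i, w = cm a b} := ha
    induction this using Submodule.span_induction with
    | mem x hx =>
      obtain ⟨s, hs, t, ht, rfl⟩ := hx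
      rw [cm_jac]
      refine Submodule.sub_mem _ ?_ ?_
      · have := lc_cm hs (ih j t ht b hb)
        rwa [show i + j + 1 + 1 = i + 1 + j + 1 by ring] at this
      · have := ih (j + 1) t ht _ (lc_cm hs hb)
        rwa [show i + (j + 1) + 1 = i + 1 + j + 1 by ring] at this
    | zero => rw [cm_zero_left]; exact Submodule.zero_mem _
    | add x y _ _ hx hy => rw [cm_add_left]; exact Submodule.add_mem _ (hx ‹_›) (hy ‹_›)
    | smul r x _ hx => rw [cm_smul_left]; exact Submodule.smul_mem _ _ (hx ‹_›)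

theorem lc_fil {c : ℕ} (A : Fil R S c) {m : Submodule R S} (hm : m ≤ A.F 1) (n : ℕ) :
    lc m n ≤ A.F (n + 1) := by
  induction n with
  | zero => exact hm
  | succ n ih =>
    refine brk_le fun a ha b hb => ?_
    have h1 := A.mul 1 (n + 1) a b (hm ha) (ih hb)
    have h2 := A.mul (n + 1) 1 b a (ih hb) (hm ha)
    rw [show 1 + (n + 1) = n + 1 + 1 by ring] at h1
    exact Submodule.sub_mem _ h1 h2

theorem ex_neg_mul (hX : S_EXA) {c : ℕ} (A : Fil R S c) {x : S} (hx : x ∈ A.F 1) :
    ex R c (-x) * ex R c x = 1 ∧ ex R c x * ex R c (-x) = 1 := by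
  obtain ⟨h0, h1⟩ := hX R S c A
  have hn : -x ∈ A.F 1 := Submodule.neg_mem _ hx
  constructor
  · rw [← h1 (-x) hn x hx (Commute.neg_left (Commute.refl x)), neg_add_cancel, h0]
  · rw [← h1 x hx (-x) hn (Commute.neg_right (Commute.refl x)), add_neg_cancel, h0]

/-- `e^y ∈ H e^i` -/
def P {c : ℕ} (A : Fil R S c) (H : Subgroup Sˣ) (i : Submodule R S) (y : S) : Prop :=
  ∃ h ∈ H, ∃ z ∈ i, ex R c y = (h : S) * ex R c z

end basics

section P

variable {R S : Type} [CommRing R] [Ring S] [Algebra R S] {c : ℕ}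

theorem P_close (hX : S_EXA) (hB : S_BC2) (A : Fil R S c) (H : Subgroup Sˣ) (m i : Submodule R S)
    (hm1 : m ≤ A.F 1) (hm2 : ∀ a ∈ m, ∀ b ∈ m, cm a b ∈ m) (him : i ≤ m)
    (hid : ∀ a ∈ m, ∀ b ∈ i, cm a b ∈ i) {y y' : S} (hy : y ∈ m) (hP : P A H i y)
    (hd : y' - y ∈ i) : P A H i y' := by
  obtain ⟨h, hh, z, hz, he⟩ := hP
  obtain ⟨ha, _, hc⟩ := hB R S c A m i hm1 hm2 him hid
  obtain ⟨⟨w, hw, hw'⟩, _⟩ := hc y hy (y' - y) hd
  rw [add_sub_cancel] at hw'
  obtain ⟨v, _, hv, hv'⟩ := ha z (him hz) w (him hw) (hid z (him hz) w hw)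
  refine ⟨h, hh, v, ?_, ?_⟩
  · have := i.add_mem (i.add_mem hv' hw) hz
    have e : v - z - w + w + z = v := by abel
    rwa [e] at this
  · rw [hv, ← mul_assoc, ← he, hw', ← mul_assoc, (ex_neg_mul hX A (hm1 hy)).2, one_mul]

theorem P_of_mem (hX : S_EXA) (A : Fil R S c) (H : Subgroup Sˣ) (i : Submodule R S)
    {x : S} {h : Sˣ} (hh : h ∈ H) (hx : (h : S) = ex R c x) : P A H i x :=
  ⟨h, hh, 0, i.zero_mem, by rw [(hX R S c A).1, mul_one, hx]⟩

theorem P_of_ideal (A : Fil R S c) (H : Subgroup Sˣ) (i : Submodule R S) {x : S} (hx : x ∈ i) :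
    P A H i x :=
  ⟨1, H.one_mem, x, hx, by rw [Units.val_one, one_mul]⟩

theorem P_add (hX : S_EXA) (hB : S_BC2) (A : Fil R S c) (H : Subgroup Sˣ) (m i : Submodule R S)
    (hm1 : m ≤ A.F 1) (hm2 : ∀ a ∈ m, ∀ b ∈ m, cm a b ∈ m) (him : i ≤ m)
    (hid : ∀ a ∈ m, ∀ b ∈ i, cm a b ∈ i) {x y : S} (hx : x ∈ m) (hy : y ∈ m)
    (hxy : cm x y ∈ i) (hPx : P A H i x) (hPy : P A H i y) : P A H i (x + y) := by
  obtain ⟨ha, _, _⟩ := hB R S c A m i hm1 hm2 him hid
  obtain ⟨h, hh, z, hz, he⟩ := hPx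
  -- `e^z e^y = e^v`, `v ≡ y`
  have hzy : cm z y ∈ i := by rw [cm_swap]; exact i.neg_mem (hid y hy z hz)
  obtain ⟨v, hvm, hv, hv'⟩ := ha z (him hz) y hy hzy
  have hPv : P A H i v := by
    refine P_close hX hB A H m i hm1 hm2 him hid hy hPy ?_
    have := i.add_mem hv' hz
    have e : v - z - y + z = v - y := by abel
    rwa [e] at this
  obtain ⟨h', hh', z', hz', he'⟩ := hPv
  obtain ⟨w, hwm, hw, hw'⟩ := ha x hx y hy hxy
  have hPw : P A H i w := by
    refine ⟨h * h', H.mul_mem hh hh', z', hz', ?_⟩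
    rw [hw, he, mul_assoc, ← hv, he', Units.val_mul, mul_assoc]
  refine P_close hX hB A H m i hm1 hm2 him hid hwm hPw ?_
  have := i.neg_mem hw'
  have e : -(w - x - y) = x + y - w := by abel
  rwa [e] at this

theorem P_neg (hX : S_EXA) (hB : S_BC2) (A : Fil R S c) (H : Subgroup Sˣ) (m i : Submodule R S)
    (hm1 : m ≤ A.F 1) (hm2 : ∀ a ∈ m, ∀ b ∈ m, cm a b ∈ m) (him : i ≤ m)
    (hid : ∀ a ∈ m, ∀ b ∈ i, cm a b ∈ i) {x : S} (hx : x ∈ m)
    (hPx : P A H i x) : P A H i (-x) := by
  obtain ⟨ha, _, _⟩ := hB R S c A m i hm1 hm2 him hid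
  obtain ⟨h, hh, z, hz, he⟩ := hPx
  have hzx : cm z (-x) ∈ i := by
    rw [cm_neg_right, cm_swap, neg_neg]; exact hid x hx z hz
  obtain ⟨v, hvm, hv, hv'⟩ := ha z (him hz) (-x) (m.neg_mem hx) hzx
  have hinv : ((h⁻¹ : Sˣ) : S) = ex R c v := by
    have h1 : ex R c z = ((h⁻¹ : Sˣ) : S) * ex R c x := by
      rw [he, ← mul_assoc, Units.inv_mul, one_mul]
    rw [hv, h1, mul_assoc, (ex_neg_mul hX A (hm1 hx)).2, mul_one]
  have hPv : P A H i v := P_of_mem hX A H i (H.inv_mem hh) hinv
  refine P_close hX hB A H m i hm1 hm2 him hid hvm hPv ?_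
  have := i.add_mem (i.neg_mem hv') (i.neg_mem hz)
  have e : -(v - z - -x) + -z = -x - v := by abel
  rwa [e] at this

/-- the additive subgroup of the `y ∈ B` with `e^y ∈ H e^i` -/
def TT (hX : S_EXA) (hB : S_BC2) (A : Fil R S c) (H : Subgroup Sˣ) (m i B : Submodule R S)
    (hm1 : m ≤ A.F 1) (hm2 : ∀ a ∈ m, ∀ b ∈ m, cm a b ∈ m) (him : i ≤ m)
    (hid : ∀ a ∈ m, ∀ b ∈ i, cm a b ∈ i) (hBm : B ≤ m)
    (hBB : ∀ a ∈ B, ∀ b ∈ B, cm a b ∈ i) : AddSubgroup S where
  carrier := {y | y ∈ B ∧ P A H i y}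
  zero_mem' := ⟨B.zero_mem, P_of_ideal A H i i.zero_mem⟩
  add_mem' := by
    rintro x y ⟨hx, hx'⟩ ⟨hy, hy'⟩
    exact ⟨B.add_mem hx hy, P_add hX hB A H m i hm1 hm2 him hid (hBm hx) (hBm hy)
      (hBB x hx y hy) hx' hy'⟩
  neg_mem' := by
    rintro x ⟨hx, hx'⟩
    exact ⟨B.neg_mem hx, P_neg hX hB A H m i hm1 hm2 him hid (hBm hx) hx'⟩

end P

/-- Lie submodule generated by a set -/
def lieSpan {R S : Type} [CommRing R] [Ring S] [Algebra R S] (G : Set S) : Submodule R S :=
  sInf {W | G ⊆ W ∧ ∀ a ∈ W, ∀ b ∈ W, cm a b ∈ W}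

theorem lieSpan_le {R S : Type} [CommRing R] [Ring S] [Algebra R S] {G : Set S}
    {W : Submodule R S} (h1 : G ⊆ W) (h2 : ∀ a ∈ W, ∀ b ∈ W, cm a b ∈ W) : lieSpan (R := R) G ≤ W :=
  sInf_le ⟨h1, h2⟩

theorem subset_lieSpan {R S : Type} [CommRing R] [Ring S] [Algebra R S] (G : Set S) :
    G ⊆ lieSpan (R := R) G := by
  intro x hx
  simp only [lieSpan, Submodule.coe_sInf, Set.mem_iInter]
  exact fun W hW => hW.1 hx

theorem cm_lieSpan {R S : Type} [CommRing R] [Ring S] [Algebra R S] (G : Set S) :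
    ∀ a ∈ lieSpan (R := R) G, ∀ b ∈ lieSpan (R := R) G, cm a b ∈ lieSpan (R := R) G := by
  intro a ha b hb
  simp only [lieSpan, Submodule.mem_sInf] at ha hb ⊢
  exact fun W hW => hW.2 a (ha W hW) b (hb W hW)

theorem t_CLO (hX : S_EXA) (hB : S_BC2) : S_CLO := by
  intro q c S _ _ A H hH
  set m : Submodule (ZMod q) S := lieSpan (R := ZMod q) (lg A H) with hmdef
  have hG : lg A H ⊆ m := subset_lieSpan _
  have hm2 : ∀ a ∈ m, ∀ b ∈ m, cm a b ∈ m := cm_lieSpan _
  have hm1 : m ≤ A.F 1 := by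
    refine lieSpan_le (fun x hx => hx.1) ?_
    intro a ha b hb
    have h1 := A.mul 1 1 a b ha hb
    have h2 := A.mul 1 1 b a hb ha
    exact A.anti 1 (Submodule.sub_mem _ h1 h2)
  have hfil := lc_fil A hm1
  have hle := lc_le hm2
  have hanti := lc_anti hm2
  have hideal : ∀ n, ∀ a ∈ m, ∀ b ∈ lc m n, cm a b ∈ lc m n :=
    fun n a ha b hb => hanti n (lc_cm ha hb)
  -- generation of `m`
  have hgen0 : m ≤ Submodule.span (ZMod q) (lg A H) ⊔ lc m 1 := by
    have hle' : Submodule.span (ZMod q) (lg A H) ⊔ lc m 1 ≤ m :=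
      sup_le (Submodule.span_le.2 hG) (hle 1)
    refine lieSpan_le (fun x hx => Submodule.mem_sup_left (Submodule.subset_span hx)) ?_
    intro a ha b hb
    exact Submodule.mem_sup_right (lc_cm (n := 0) (hle' ha) (hle' hb))
  have hgen : ∀ n, lc m (n + 1) ≤
      Submodule.span (ZMod q) {w | ∃ x ∈ lg A H, ∃ v ∈ lc m n, w = cm x v} ⊔ lc m (n + 2) := by
    intro n
    refine brk_le fun a ha b hb => ?_
    have key : ∀ s ∈ Submodule.span (ZMod q) (lg A H), cm s b ∈
        Submodule.span (ZMod q) {w | ∃ x ∈ lg A H, ∃ v ∈ lc m n, w = cm x v} := by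
      intro s hs
      induction hs using Submodule.span_induction with
      | mem x hx => exact Submodule.subset_span ⟨x, hx, b, hb, rfl⟩
      | zero => rw [cm_zero_left]; exact Submodule.zero_mem _
      | add x y _ _ hx hy => rw [cm_add_left]; exact Submodule.add_mem _ hx hy
      | smul r x _ hx => rw [cm_smul_left]; exact Submodule.smul_mem _ _ hx
    obtain ⟨s, hs, d, hd, rfl⟩ := Submodule.mem_sup.1 (hgen0 ha)
    rw [cm_add_left]
    refine Submodule.add_mem _ (Submodule.mem_sup_left (key s hs)) (Submodule.mem_sup_right ?_)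
    have := lc_comm 1 n d hd b hb
    rwa [show 1 + n + 1 = n + 2 by ring] at this
  -- the claim
  have hQ : ∀ n, ∀ y ∈ lc m n, P A H (lc m (n + 1)) y := by
    intro n
    induction n with
    | zero =>
      intro y hy
      set T := TT hX hB A H m (lc m 1) m hm1 hm2 (hle 1) (hideal 1) le_rfl
        (fun a ha b hb => lc_cm (n := 0) ha hb) with hT
      have h1 : m ≤ AddSubgroup.toZModSubmodule q T := by
        refine hgen0.trans (sup_le (Submodule.span_le.2 ?_) ?_)
        · rintro x hx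
          obtain ⟨h, hh, hx'⟩ := hx.2
          exact ⟨hG hx, P_of_mem hX A H _ hh hx'⟩
        · intro x hx
          exact ⟨hle 1 hx, P_of_ideal A H _ hx⟩
      exact (h1 hy).2
    | succ n ih =>
      intro y hy
      set T := TT hX hB A H m (lc m (n + 2)) (lc m (n + 1)) hm1 hm2 (hle _) (hideal _) (hle _)
        (fun a ha b hb => by
          exact lc_cm (n := n + 1) (hle _ ha) hb) with hT
      have h1 : lc m (n + 1) ≤ AddSubgroup.toZModSubmodule q T := by
        refine (hgen n).trans (sup_le (Submodule.span_le.2 ?_) ?_)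
        · rintro w ⟨x, hx, v, hv, rfl⟩
          refine ⟨lc_cm (hG hx) hv, ?_⟩
          -- replace `v` by a logarithm `u`
          obtain ⟨h, hh, v', hv', he⟩ := ih v hv
          obtain ⟨ha, _, _⟩ := hB (ZMod q) S c A m (lc m (n + 1)) hm1 hm2 (hle _) (hideal _)
          obtain ⟨u, hum, hu, hu'⟩ := ha v (hle _ hv) (-v') (m.neg_mem (hle _ hv'))
            (hideal _ v (hle _ hv) _ (Submodule.neg_mem _ hv'))
          have huv : u - v ∈ lc m (n + 1) := by
            have := Submodule.sub_mem _ hu' hv'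
            have e : u - v - -v' - v' = u - v := by abel
            rwa [e] at this
          have hun : u ∈ lc m n := by
            have := Submodule.add_mem _ (hanti n huv) hv
            rwa [sub_add_cancel] at this
          have hue : (h : S) = ex (ZMod q) c u := by
            rw [hu, he, mul_assoc, (ex_neg_mul hX A (hm1 (hle _ hv'))).2, mul_one]
          obtain ⟨g, hg, hge⟩ := hx.2
          -- the group commutator
          obtain ⟨_, hb, _⟩ := hB (ZMod q) S c A m (lc m (n + 2)) hm1 hm2 (hle _) (hideal _)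
          obtain ⟨z, hz, hze, hz'⟩ := hb (lc m n) ((hanti _).trans (hanti _)) (hle _) (hideal _)
            (fun a ha b hb w hw => lc_cm ha (lc_cm hb hw)) x (hG hx) u hun
          have hzP : P A H (lc m (n + 2)) z := by
            refine P_of_mem hX A H _ (h := g * h * g⁻¹ * h⁻¹)
              (H.mul_mem (H.mul_mem (H.mul_mem hg hh) (H.inv_mem hg)) (H.inv_mem hh)) ?_
            have hgi : ((g⁻¹ : Sˣ) : S) = ex (ZMod q) c (-x) := by
              have := (ex_neg_mul hX A hx.1).1
              rw [← hge] at this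
              calc ((g⁻¹ : Sˣ) : S) = 1 * ((g⁻¹ : Sˣ) : S) := (one_mul _).symm
                _ = _ := by rw [← this, mul_assoc, Units.mul_inv, mul_one]
            have hhi : ((h⁻¹ : Sˣ) : S) = ex (ZMod q) c (-u) := by
              have := (ex_neg_mul hX A (hm1 hum)).1
              rw [← hue] at this
              calc ((h⁻¹ : Sˣ) : S) = 1 * ((h⁻¹ : Sˣ) : S) := (one_mul _).symm
                _ = _ := by rw [← this, mul_assoc, Units.mul_inv, mul_one]
            rw [hze, Units.val_mul, Units.val_mul, Units.val_mul, hgi, hhi, hge, hue]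
          refine P_close hX hB A H m _ hm1 hm2 (hle _) (hideal _) (hle _ hz) hzP ?_
          have h3 : cm x v - cm x u ∈ lc m (n + 2) := by
            rw [← cm_sub_right]
            refine lc_cm (hG hx) ?_
            have := Submodule.neg_mem _ huv
            rwa [neg_sub] at this
          have := Submodule.add_mem _ h3 (Submodule.neg_mem _ hz')
          have e : cm x v - cm x u + -(z - cm x u) = cm x v - z := by abel
          rwa [e] at this
        · intro x hx
          exact ⟨hanti _ hx, P_of_ideal A H _ hx⟩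
      exact (h1 hy).2
  -- conclusion
  have hlast : ∀ n, ∀ y ∈ m, P A H (lc m n) y := by
    intro n
    induction n with
    | zero => exact fun y hy => P_of_ideal A H _ hy
    | succ n ih =>
      intro y hy
      obtain ⟨h, hh, z, hz, he⟩ := ih y hy
      obtain ⟨h', hh', z', hz', he'⟩ := hQ n z hz
      exact ⟨h * h', H.mul_mem hh hh', z', hz', by
        rw [he, he', Units.val_mul, mul_assoc]⟩
  refine ⟨m, fun x => ⟨fun hx => ?_, fun hx => hG hx⟩, hm2⟩
  obtain ⟨h, hh, z, hz, he⟩ := hlast c x hx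
  have hz0 : z = 0 := by
    have := hfil c hz
    rw [A.bot] at this
    exact (Submodule.mem_bot _).1 this
  refine ⟨hm1 hx, h, hh, ?_⟩
  rw [he, hz0, (hX _ S c A).1, mul_one]

end H84.LZ
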