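import Pool.Agent.H84.LZ.Clo

/-!
# Part IDE of the Lazard block: normal subgroups and ideals
-/

set_option autoImplicit false

open Finset

namespace H84.LZ

open H70.LZ

section adjoint

variable {R S : Type} [CommRing R] [Ring S] [Algebra R S] {c : ℕ}

theorem inv_ex (hX : S_EXA) (A : Fil R S c) {x : S} (hx : x ∈ A.F 1) {h : Sˣ}
    (hh : (h : S) = ex R c x) : ((h⁻¹ : Sˣ) : S) = ex R c (-x) := by
  have := (ex_neg_mul hX A hx).1
  rw [← hh] at this
  calc ((h⁻¹ : Sˣ) : S) = 1 * ((h⁻¹ : Sˣ) : S) := (one_mul _).symm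
    _ = _ := by rw [← this, mul_assoc, Units.mul_inv, mul_one]

/-- `ad x` -/
def adl (R : Type) {S : Type} [CommRing R] [Ring S] [Algebra R S] (x : S) : S →ₗ[R] S :=
  LinearMap.mulLeft R x - LinearMap.mulRight R x

theorem adl_apply (x w : S) : adl R x w = cm x w := by
  simp [adl, cm]

theorem adl_mem (A : Fil R S c) {x : S} (hx : x ∈ A.F 1) (n : ℕ) {v : S} (hv : v ∈ A.F n) :
    cm x v ∈ A.F (n + 1) := by
  have h1 := A.mul 1 n x v hx hv
  have h2 := A.mul n 1 v x hv hx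
  rw [Nat.add_comm] at h1
  exact Submodule.sub_mem _ h1 h2

/-- `ad x` on `F 1` -/
def adF (A : Fil R S c) (x : S) (hx : x ∈ A.F 1) : ↥(A.F 1) →ₗ[R] ↥(A.F 1) :=
  (adl R x).restrict (p := A.F 1) (q := A.F 1) fun v hv => by
    rw [adl_apply]
    exact A.anti 1 (adl_mem A hx 1 hv)

theorem adF_apply (A : Fil R S c) (x : S) (hx : x ∈ A.F 1) (v : A.F 1) :
    (adF A x hx v : S) = cm x v := by
  rw [adF, LinearMap.coe_restrict_apply, adl_apply]

theorem adF_pow (A : Fil R S c) (x : S) (hx : x ∈ A.F 1) (n : ℕ) (v : A.F 1) :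
    ((adF A x hx ^ n) v : S) = adp x n v := by
  induction n with
  | zero => simp [adp]
  | succ n ih =>
    rw [pow_succ', Module.End.mul_apply, adF_apply, ih, adp, adp, Function.iterate_succ_apply']

theorem adp_mem (A : Fil R S c) (x : S) (hx : x ∈ A.F 1) (n : ℕ) (v : S) (hv : v ∈ A.F 1) :
    adp x n v ∈ A.F (n + 1) := by
  induction n with
  | zero => simpa [adp] using hv
  | succ n ih =>
    rw [adp, Function.iterate_succ_apply']
    exact adl_mem A hx _ ih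

theorem adF_nil (A : Fil R S c) (x : S) (hx : x ∈ A.F 1) : adF A x hx ^ c = 0 := by
  ext v
  rw [adF_pow]
  have := adp_mem A x hx c v v.2
  rw [A.bot, Submodule.mem_bot] at this
  rw [this]; simp

/-- `Ad (e^x)` on `F 1` -/
noncomputable def EF (A : Fil R S c) (x : S) (hx : x ∈ A.F 1) : ↥(A.F 1) →ₗ[R] ↥(A.F 1) :=
  ∑ i ∈ range (c + 1), Ring.inverse (i.factorial : R) • adF A x hx ^ i

theorem EF_apply (hA : S_ADE) (A : Fil R S c) (x : S) (hx : x ∈ A.F 1) (v : A.F 1) :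
    (EF A x hx v : S) = ex R c x * v * ex R c (-x) := by
  rw [(hA R S c A x hx v v.2).1, EF, LinearMap.sum_apply, Submodule.coe_sum]
  refine Finset.sum_congr rfl fun i _ => ?_
  rw [LinearMap.smul_apply, Submodule.coe_smul, adF_pow]

end adjoint

/-- the logarithms of a subgroup normalised by `H` are stable under `Ad` -/
theorem conj_lg (hX : S_EXA) (hA : S_ADE) {R S : Type} [CommRing R] [Ring S] [Algebra R S] {c : ℕ}
    (A : Fil R S c) (N : Subgroup Sˣ) (x : S) (hx : x ∈ A.F 1) (h : Sˣ) (hh : (h : S) = ex R c x)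
    (hN : ∀ n ∈ N, h * n * h⁻¹ ∈ N) (v : A.F 1) (hv : (v : S) ∈ lg A N) :
    (EF A x hx v : S) ∈ lg A N := by
  obtain ⟨_, n, hn, hne⟩ := hv
  refine ⟨(EF A x hx v).2, h * n * h⁻¹, hN n hn, ?_⟩
  rw [EF_apply hA, ← (hA R S c A x hx v v.2).2, Units.val_mul, Units.val_mul, inv_ex hX A hx hh, hh, hne]

theorem t_IDE (hX : S_EXA) (hA : S_ADE) (hE : S_EXB) (hN : S_NIL) (hB : S_BC2) (hC : S_CLO) :
    S_IDE := by
  intro q c S _ _ A H N hH hNH hconj
  obtain ⟨m, hm, hm2⟩ := hC q c S A H hH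
  obtain ⟨i, hi, hi2⟩ := hC q c S A N (fun n hn => hH n (hNH hn))
  have hm1 : m ≤ A.F 1 := fun x hx => ((hm x).1 hx).1
  have him : i ≤ m := fun x hx =>
    (hm x).2 ⟨((hi x).1 hx).1, ((hi x).1 hx).2.imp fun h hh => ⟨hNH hh.1, hh.2⟩⟩
  have hid : ∀ a ∈ m, ∀ b ∈ i, cm a b ∈ i := by
    intro x hx n hn
    obtain ⟨hx1, h, hh, hhe⟩ := (hm x).1 hx
    obtain ⟨h1, _, _⟩ := hN (ZMod q) (A.F 1) c A.inv (adF A x hx1) (EF A x hx1) (adF_nil A x hx1)
      rfl (i.comap (A.F 1).subtype)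
    have h2 := h1 (fun w hw => by
      rw [Submodule.mem_comap, Submodule.subtype_apply] at hw ⊢
      exact (hi _).2 (conj_lg hX hA A N x hx1 h hhe (hconj h hh) w ((hi _).1 hw)))
      ⟨n, hm1 (him hn)⟩ hn
    rw [Submodule.mem_comap, Submodule.subtype_apply, adF_apply] at h2
    exact h2
  refine ⟨fun x hx n hn => (hi _).1 (hid x ((hm x).2 hx) n ((hi n).2 hn)), ?_⟩
  intro x hx y hy
  obtain ⟨_, _, hc⟩ := hB (ZMod q) S c A m i hm1 hm2 him hid
  have hym : y ∈ m := (hm y).2 hy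
  have hxm : x ∈ m := (hm x).2 hx
  constructor
  · intro hxy
    obtain ⟨⟨z, hz, hze⟩, _⟩ := hc y hym (x - y) ((hi _).2 hxy)
    rw [add_sub_cancel] at hze
    obtain ⟨_, n, hn, hne⟩ := (hi z).1 hz
    refine ⟨n, hn, ?_⟩
    rw [hne, hze, ← mul_assoc, (ex_neg_mul hX A (hm1 hym)).2, one_mul]
  · rintro ⟨n, hn, hne⟩
    obtain ⟨_, hinj, hsurj⟩ := hE (ZMod q) S c A
    obtain ⟨w, hw, hwe⟩ := hsurj (n : S) (hH n (hNH hn))
    have hwi : w ∈ i := (hi w).2 ⟨hw, n, hn, hwe.symm⟩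
    obtain ⟨_, z, hz, hze, hzy⟩ := hc y hym w hwi
    have hxz : x = z := by
      have := (hinj (c + 1) (Nat.le_add_left _ _) x (hm1 hxm) z (hm1 hz)).2 (by
        rw [hze, hne, hwe, sub_self]; exact Submodule.zero_mem _)
      rw [A.bot, Submodule.mem_bot, sub_eq_zero] at this
      exact this
    rw [hxz]
    exact (hi _).1 hzy

end H84.LZ
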