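import Pool.Agent.H70.LZ.Stm

/-!
# Part NIL of the Lazard block
-/

set_option autoImplicit false

open Finset Polynomial

namespace H84.LZ

/-- stability of a submodule under polynomials divisible by `X ^ i` -/
theorem stab {R V : Type} [CommRing R] [AddCommGroup V] [Module R V] (N : V →ₗ[R] V)
    (W : Submodule R V) (i : ℕ) (h : ∀ j, i ≤ j → ∀ w ∈ W, (N ^ j) w ∈ W) (r : R[X]) :
    ∀ w ∈ W, (aeval N (X ^ i * r) : V →ₗ[R] V) w ∈ W := by
  intro w hw
  rw [map_mul, map_pow, aeval_X, aeval_eq_sum_range, Finset.mul_sum, LinearMap.sum_apply]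
  refine W.sum_mem fun k _ => ?_
  rw [mul_smul_comm, ← pow_add, LinearMap.smul_apply]
  exact W.smul_mem _ (h _ (Nat.le_add_right _ _) w hw)

theorem t_NIL : H70.LZ.S_NIL := by
  intro R V _ _ _ c _hu N E hN hE W
  rcases Nat.eq_zero_or_pos c with rfl | hc
  · have hz : ∀ w : V, w = 0 := fun w => by
      have := congrArg (fun f : V →ₗ[R] V => f w) hN
      simpa using this
    refine ⟨fun _ w hw => by rw [hz (N w)]; exact W.zero_mem,
      fun _ => ⟨fun w hw => ⟨w, hw, by rw [hz (N w), hz (E w - w)]⟩,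
        fun w hw => ⟨w, hw, by rw [hz (N w), hz (E w - w)]⟩⟩, fun w _ => hz _⟩
  obtain ⟨d, rfl⟩ : ∃ d, c = d + 1 := ⟨c - 1, by omega⟩
  obtain ⟨u, he⟩ : ∃ u : R[X], E = aeval N (1 + X * (1 + X * u)) := by
    refine ⟨∑ i ∈ range d, C (Ring.inverse ((i + 2).factorial : R)) * X ^ i, ?_⟩
    rw [hE, Finset.sum_range_succ', Finset.sum_range_succ']
    simp only [map_add, map_mul, map_one, aeval_X, map_sum, aeval_C, map_pow, mul_add, Finset.mul_sum,
      Algebra.algebraMap_eq_smul_one, smul_mul_assoc, one_mul, mul_smul_comm, mul_one]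
    simp only [zero_add, Nat.factorial_one, Nat.cast_one, Ring.inverse_one, one_smul, pow_one,
      Nat.factorial_zero, pow_zero]
    rw [add_comm, add_comm (∑ _ ∈ _, _)]
    congr 2
    refine Finset.sum_congr rfl fun i _ => ?_
    congr 1
    rw [pow_succ', pow_succ']
  -- powers of `E - 1`
  have hpow : ∀ i : ℕ, ∃ r : R[X], (E - 1) ^ i = N ^ i + aeval N (X ^ (i + 1) * r) := by
    intro i
    have h1 : (X : R[X]) ∣ (1 + X * u) ^ i - 1 := by
      have h2 : (1 + X * u) - 1 ∣ (1 + X * u) ^ i - 1 ^ i := sub_dvd_pow_sub_pow _ _ _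
      rw [one_pow] at h2
      refine dvd_trans ⟨u, by ring⟩ h2
    obtain ⟨r, hr⟩ := h1
    refine ⟨r, ?_⟩
    have h3 : E - 1 = aeval N (X * (1 + X * u)) := by
      rw [he, map_add, map_one, add_sub_cancel_left]
    have h4 : (X * (1 + X * u)) ^ i = X ^ i + X ^ (i + 1) * r := by
      rw [mul_pow, show (1 + X * u) ^ i = 1 + X * r by rw [← hr]; ring, pow_succ]
      ring
    rw [h3, ← map_pow, h4, map_add, map_pow, aeval_X]
  -- the unit `U`
  have hXz : ∀ r : R[X], (aeval N (X ^ (d + 1) * r) : V →ₗ[R] V) = 0 := by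
    intro r
    rw [map_mul, map_pow, aeval_X]
    rw [hN, zero_mul]
  obtain ⟨v, hv⟩ : ∃ v : R[X], (aeval N ((1 + X * u) * v) : V →ₗ[R] V) = 1 := by
    refine ⟨∑ j ∈ range (d + 1), (-(X * u)) ^ j, ?_⟩
    have h1 : (1 + X * u) * ∑ j ∈ range (d + 1), (-(X * u)) ^ j = 1 - (-(X * u)) ^ (d + 1) := by
      have := mul_neg_geom_sum (-(X * u)) (d + 1)
      rw [sub_neg_eq_add] at this
      exact this
    have h2 : (1 : R[X]) - (-(X * u)) ^ (d + 1) = 1 - X ^ (d + 1) * (-u) ^ (d + 1) := by
      rw [← mul_pow]; ring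
    rw [h1, h2, map_sub, hXz, sub_zero, map_one]
  refine ⟨?_, ?_, ?_⟩
  · intro hW
    have hE1 : ∀ i : ℕ, ∀ w ∈ W, ((E - 1) ^ i) w ∈ W := by
      intro i
      induction i with
      | zero => intro w hw; simpa using hw
      | succ i ih =>
        intro w hw
        rw [pow_succ, Module.End.mul_apply]
        exact ih _ (by
          rw [LinearMap.sub_apply, Module.End.one_apply]
          exact W.sub_mem (hW w hw) hw)
    have key : ∀ k : ℕ, k ≤ d → ∀ j, d + 1 - k ≤ j → ∀ w ∈ W, (N ^ j) w ∈ W := by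
      intro k
      induction k with
      | zero =>
        intro _ j hj w hw
        have : N ^ j = 0 := by
          obtain ⟨t, rfl⟩ := Nat.exists_eq_add_of_le (show d + 1 ≤ j by omega)
          rw [pow_add, hN, zero_mul]
        rw [this]; simp
      | succ k ih =>
        intro hk j hj w hw
        have ih' := ih (by omega)
        rcases Nat.lt_or_ge j (d + 1 - k) with hlt | hge
        · obtain ⟨r, hr⟩ := hpow j
          have h1 : (N ^ j) w = ((E - 1) ^ j) w - (aeval N (X ^ (j + 1) * r) : V →ₗ[R] V) w := by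
            rw [hr, LinearMap.add_apply, add_sub_cancel_right]
          rw [h1]
          refine W.sub_mem (hE1 j w hw) (stab N W (j + 1) (fun t ht => ih' t (by omega)) r w hw)
        · exact ih' j hge w hw
    intro w hw
    have := key d le_rfl 1 (by omega) w hw
    simpa using this
  · intro hW
    have hW' : ∀ j, 0 ≤ j → ∀ w ∈ W, (N ^ j) w ∈ W := by
      intro j _
      induction j with
      | zero => intro w hw; simpa using hw
      | succ i ih =>
        intro w hw
        rw [pow_succ, Module.End.mul_apply]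
        exact ih (Nat.zero_le _) _ (hW w hw)
    have hst : ∀ r : R[X], ∀ w ∈ W, (aeval N r : V →ₗ[R] V) w ∈ W := by
      intro r w hw
      have := stab N W 0 hW' r w hw
      simpa using this
    refine ⟨fun w hw => ⟨(aeval N v : V →ₗ[R] V) w, hst v w hw, ?_⟩,
      fun w hw => ⟨(aeval N (1 + X * u) : V →ₗ[R] V) w, hst _ w hw, ?_⟩⟩
    · have h1 : (E - 1) * aeval N v = N := by
        rw [he, map_add, map_one, add_sub_cancel_left, map_mul, aeval_X, mul_assoc, ← map_mul, hv,
          mul_one]
      have h2 := congrArg (fun f : V →ₗ[R] V => f w) h1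
      simp only [Module.End.mul_apply, LinearMap.sub_apply, Module.End.one_apply] at h2
      exact h2.symm
    · have h1 : E - 1 = N * aeval N (1 + X * u) := by
        rw [he, map_add, map_one, add_sub_cancel_left, map_mul, aeval_X]
      have h2 := congrArg (fun f : V →ₗ[R] V => f w) h1
      simp only [Module.End.mul_apply, LinearMap.sub_apply, Module.End.one_apply] at h2
      exact h2
  · intro w hw
    have h1 : aeval N v * (E - 1) = N := by
      rw [he, map_add, map_one, add_sub_cancel_left, ← map_mul,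
        show v * (X * (1 + X * u)) = X * ((1 + X * u) * v) by ring, map_mul, hv, mul_one, aeval_X]
    have h2 := congrArg (fun f : V →ₗ[R] V => f w) h1
    simp only [Module.End.mul_apply, LinearMap.sub_apply, Module.End.one_apply, hw, sub_self,
      map_zero] at h2
    exact h2.symm

end H84.LZ
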